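import Pool.Agent.K.MP_2ca0d6_al.C3

set_option autoImplicit false

namespace Pool.Agent.Results.MP_2ca0d6_al.CupSquare

/-- Every free group of rank at least two carries a quasimorphism `φ` such that the cup square of
the bounded 2-cocycle `δφ` is at sup-distance more than `1/24` from the coboundary of every bounded
3-cochain. -/
theorem result (α : Type) (a b : α) (hab : a ≠ b) :
    ∃ φ : FreeGroup α → ℝ, (∃ C : ℝ, ∀ x y, |φ y - φ (x * y) + φ x| ≤ C) ∧
      ∀ β : FreeGroup α → FreeGroup α → FreeGroup α → ℝ, (∃ C : ℝ, ∀ x y z, |β x y z| ≤ C) →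
        ∃ x y z w, 1 / 24 < |(φ y - φ (x * y) + φ x) * (φ w - φ (z * w) + φ z) -
          (β y z w - β (x * y) z w + β x (y * z) w - β x y (z * w) + β x y z)| :=
  Pool.Agent.P.MP_2ca0d6_al.Cup.cup_main a b hab

end Pool.Agent.Results.MP_2ca0d6_al.CupSquare
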