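import Pool.Agent.K.MP_2ca0d6_al.C2

set_option autoImplicit false

open Pool.Agent.P.MP_2ca0d6_al

namespace Pool.Agent.Results.MP_2ca0d6_al.NonHausdorff

/-- For a free group `F` of rank at least two and every degree `n + 1 ≥ 3` there is a bounded
cocycle that is a uniform limit of coboundaries of bounded cochains but is not such a coboundary:
the zero-norm subspace of bounded cohomology is nonzero. -/
theorem result (α : Type) (a b : α) (hab : a ≠ b) (n : ℕ) (hn : 2 ≤ n) :
    ∃ c : (Fin (n + 1) → FreeGroup α) → ℝ, Bdd c ∧ delta c = 0 ∧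
      (∀ ε > 0, ∃ β : (Fin n → FreeGroup α) → ℝ, Bdd β ∧ ∀ g, |c g - delta β g| ≤ ε) ∧
      ¬ ∃ β : (Fin n → FreeGroup α) → ℝ, Bdd β ∧ delta β = c := by
  refine (dichotomy n hn).resolve_left fun h => ?_
  obtain ⟨c, h1, h2, h3⟩ := Pos.main α a b hab n (by omega)
  obtain ⟨β, hβ, e⟩ := h c h1 h2
  obtain ⟨g, hg⟩ := h3 β hβ
  rw [e, sub_self, abs_zero] at hg
  norm_num at hg

end Pool.Agent.Results.MP_2ca0d6_al.NonHausdorff
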