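import Pool.Agent.K.MP_2ca0d6_al.C2

set_option autoImplicit false

open Pool.Agent.P.MP_2ca0d6_al

namespace Pool.Agent.Results.MP_2ca0d6_al.PositiveSeminorm

/-- For a free group `F` of rank at least two and every degree `n + 1 ≥ 2` there is a bounded
cocycle (inhomogeneous bar complex, trivial real coefficients) at sup-distance at least `1/2` from
all coboundaries of bounded cochains: its class in bounded cohomology has positive Gromov
seminorm. -/
theorem result (α : Type) (a b : α) (hab : a ≠ b) (n : ℕ) (hn : 1 ≤ n) :
    ∃ c : (Fin (n + 1) → FreeGroup α) → ℝ, Bdd c ∧ delta c = 0 ∧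
      ∀ β : (Fin n → FreeGroup α) → ℝ, Bdd β → ∃ g, 1 / 2 < |c g - delta β g| :=
  Pos.main α a b hab n hn

end Pool.Agent.Results.MP_2ca0d6_al.PositiveSeminorm
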