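import Pool.Agent.K.MP_2ca0d6_al.C0

set_option autoImplicit false

open Filter Topology Pool.Agent.P.MP_2ca0d6_al

namespace Pool.Agent.Results.MP_2ca0d6_al.WeakStarDensity

/-- Bounded cohomology of a free group `F` in every degree `n + 1 ≥ 3` (inhomogeneous bar complex,
trivial real coefficients): every bounded cocycle is a pointwise limit of coboundaries of bounded
cochains whose sup norms are at most 13 times its own. -/
theorem result (α : Type) (n : ℕ) (hn : 2 ≤ n) (c : (Fin (n + 1) → FreeGroup α) → ℝ) (M : ℝ)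
    (hM : ∀ g, |c g| ≤ M) (hc : delta c = 0) :
    ∃ β : ℕ → (Fin n → FreeGroup α) → ℝ, (∀ L, Bdd (β L)) ∧
      (∀ L g, |delta (β L) g| ≤ 13 * M) ∧
      ∀ g, Tendsto (fun L => delta (β L) g) atTop (𝓝 (c g)) :=
  approx n hn c M hM hc

end Pool.Agent.Results.MP_2ca0d6_al.WeakStarDensity
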